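import Mathlib

set_option autoImplicit false

open Set Filter Topology

namespace Pool.Agent.Results.MP_97ba4e_an.WeakNotNorm

/-! ### The general notions -/

/-- `G` is a Chebyshev set with metric projection `π` -/
def IsMetricProjection {E : Type} [NormedAddCommGroup E] (G : Set E) (π : E → E) : Prop :=
  ∀ x, π x ∈ G ∧ ∀ g ∈ G, g ≠ π x → ‖x - π x‖ < ‖x - g‖

/-- continuity from the weak to the weak topology -/
def WeaklyContinuous {E : Type} [NormedAddCommGroup E] [NormedSpace ℝ E] (f : E → E) : Prop :=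
  Continuous fun x : WeakSpace ℝ E => toWeakSpace ℝ E (f ((toWeakSpace ℝ E).symm x))

/-! ### The functions `p_n` -/

/-- `p_n(u)`, homogeneous of degree one, odd -/
noncomputable def p (n : ℕ) (u : ℂ) : ℝ :=
  max 0 (‖u‖ - 2 * |4 ^ n * u.im - ‖u‖|) - max 0 (‖u‖ - 2 * |4 ^ n * u.im + ‖u‖|)

theorem p_cont (n : ℕ) : Continuous (p n) := by
  unfold p
  have := Complex.continuous_im
  fun_prop

theorem p_neg (n : ℕ) (u : ℂ) : p n (-u) = -p n u := by
  unfold p
  rw [norm_neg, Complex.neg_im]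
  have e1 : |4 ^ n * -u.im - ‖u‖| = |4 ^ n * u.im + ‖u‖| := by
    rw [← abs_neg]; congr 1; ring
  have e2 : |4 ^ n * -u.im + ‖u‖| = |4 ^ n * u.im - ‖u‖| := by
    rw [← abs_neg]; congr 1; ring
  rw [e1, e2]; ring

theorem p_smul (n : ℕ) (r : ℝ) (hr : 0 ≤ r) (u : ℂ) : p n ((r : ℂ) * u) = r * p n u := by
  unfold p
  rw [norm_mul, Complex.norm_real, Real.norm_eq_abs, abs_of_nonneg hr, Complex.im_ofReal_mul]
  have e1 : |4 ^ n * (r * u.im) - r * ‖u‖| = r * |4 ^ n * u.im - ‖u‖| := by
    rw [← abs_of_nonneg hr, ← abs_mul, abs_of_nonneg hr]; congr 1; ring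
  have e2 : |4 ^ n * (r * u.im) + r * ‖u‖| = r * |4 ^ n * u.im + ‖u‖| := by
    rw [← abs_of_nonneg hr, ← abs_mul, abs_of_nonneg hr]; congr 1; ring
  rw [e1, e2]
  have e3 : r * ‖u‖ - 2 * (r * |4 ^ n * u.im - ‖u‖|) = r * (‖u‖ - 2 * |4 ^ n * u.im - ‖u‖|) := by ring
  have e4 : r * ‖u‖ - 2 * (r * |4 ^ n * u.im + ‖u‖|) = r * (‖u‖ - 2 * |4 ^ n * u.im + ‖u‖|) := by ring
  have e5 : ∀ a : ℝ, max 0 (r * a) = r * max 0 a := by
    intro a
    rw [mul_max_of_nonneg _ _ hr, mul_zero]
  rw [e3, e4, e5, e5]; ring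

theorem p_abs_le (n : ℕ) (u : ℂ) : |p n u| ≤ ‖u‖ := by
  unfold p
  have h1 := abs_nonneg (4 ^ n * u.im - ‖u‖)
  have h2 := abs_nonneg (4 ^ n * u.im + ‖u‖)
  have h3 := norm_nonneg u
  have a1 : max 0 (‖u‖ - 2 * |4 ^ n * u.im - ‖u‖|) ≤ ‖u‖ := max_le h3 (by linarith)
  have a2 : max 0 (‖u‖ - 2 * |4 ^ n * u.im + ‖u‖|) ≤ ‖u‖ := max_le h3 (by linarith)
  have b1 : 0 ≤ max 0 (‖u‖ - 2 * |4 ^ n * u.im - ‖u‖|) := le_max_left _ _
  have b2 : 0 ≤ max 0 (‖u‖ - 2 * |4 ^ n * u.im + ‖u‖|) := le_max_left _ _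
  rw [abs_le]; constructor <;> linarith

theorem p_supp (n : ℕ) (u : ℂ) (h : p n u ≠ 0) : ‖u‖ / 2 < 4 ^ n * |u.im| ∧ 4 ^ n * |u.im| < 3 / 2 * ‖u‖ := by
  by_contra hcon
  apply h
  have h4 : (0 : ℝ) < 4 ^ n := by positivity
  have key : ‖u‖ - 2 * |4 ^ n * u.im - ‖u‖| ≤ 0 ∧ ‖u‖ - 2 * |4 ^ n * u.im + ‖u‖| ≤ 0 := by
    have hu := norm_nonneg u
    have him : 4 ^ n * |u.im| = |4 ^ n * u.im| := by rw [abs_mul, abs_of_pos h4]
    rw [him] at hcon
    rw [not_and_or, not_lt, not_lt] at hcon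
    constructor
    · rcases hcon with hc | hc
      · have := le_abs_self (4 ^ n * u.im)
        have h5 := neg_abs_le (4 ^ n * u.im - ‖u‖)
        linarith
      · rcases le_total 0 (4 ^ n * u.im) with h6 | h6
        · rw [abs_of_nonneg h6] at hc
          have := le_abs_self (4 ^ n * u.im - ‖u‖)
          linarith
        · have h5 := neg_abs_le (4 ^ n * u.im - ‖u‖)
          linarith
    · rcases hcon with hc | hc
      · have := neg_abs_le (4 ^ n * u.im)
        have h5 := le_abs_self (4 ^ n * u.im + ‖u‖)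
        linarith
      · rcases le_total 0 (4 ^ n * u.im) with h6 | h6
        · have := le_abs_self (4 ^ n * u.im + ‖u‖)
          linarith
        · rw [abs_of_nonpos h6] at hc
          have h5 := neg_abs_le (4 ^ n * u.im + ‖u‖)
          linarith
  unfold p
  rw [max_eq_left key.1, max_eq_left key.2, sub_zero]

theorem p_disj (n m : ℕ) (u : ℂ) (hn : p n u ≠ 0) (hm : p m u ≠ 0) : n = m := by
  wlog hlt : n < m generalizing n m with H
  · rcases lt_or_eq_of_le (not_lt.1 hlt) with h | h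
    · exact (H m n hm hn h).symm
    · exact h.symm
  exfalso
  have h1 := (p_supp n u hn).1
  have h2 := (p_supp m u hm).2
  have h3 : (4 : ℝ) ^ n * 4 ≤ 4 ^ m := by
    rw [← pow_succ]; exact pow_le_pow_right₀ (by norm_num) hlt
  have h4 := abs_nonneg u.im
  have h5 : (4 : ℝ) ^ n * 4 * |u.im| ≤ 4 ^ m * |u.im| := mul_le_mul_of_nonneg_right h3 h4
  nlinarith [norm_nonneg u]

/-! ### The norming functionals -/

/-- real inner product of `ℂ = ℝ²` -/
noncomputable def ip (a b : ℂ) : ℝ := a.re * b.re + a.im * b.im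

theorem ip_le (a b : ℂ) : ip a b ≤ ‖a‖ * ‖b‖ := by
  have h : ip a b ≤ Real.sqrt ((a.re ^ 2 + a.im ^ 2) * (b.re ^ 2 + b.im ^ 2)) := by
    apply Real.le_sqrt_of_sq_le
    unfold ip
    nlinarith [sq_nonneg (a.re * b.im - a.im * b.re)]
  rw [Complex.norm_eq_sqrt_sq_add_sq, Complex.norm_eq_sqrt_sq_add_sq, ← Real.sqrt_mul (by positivity)]
  exact h

theorem ip_self (a : ℂ) : ip a a = ‖a‖ ^ 2 := by
  rw [Complex.norm_eq_sqrt_sq_add_sq, Real.sq_sqrt (by positivity)]; unfold ip; ring

/-- admissible functionals -/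
def W (j : ℕ × ℂ × ℝ) : Prop := |j.2.2| ≤ 1 ∧ ∀ a : ℂ, ‖a‖ = 1 → ip j.2.1 a + j.2.2 * p j.1 a ≤ 1

/-- index set of the norming functionals -/
abbrev J : Type := {j : ℕ × ℂ × ℝ // W j}

theorem W_le (j : J) (u : ℂ) : ip j.1.2.1 u + j.1.2.2 * p j.1.1 u ≤ ‖u‖ := by
  rcases eq_or_ne u 0 with h | h
  · subst h
    have : p j.1.1 0 = 0 := by
      have := p_abs_le j.1.1 0
      rw [norm_zero] at this
      exact abs_eq_zero.1 (le_antisymm this (abs_nonneg _))
    rw [this]; simp [ip]
  · have hu : 0 < ‖u‖ := norm_pos_iff.2 h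
    have h1 := j.2.2 (((‖u‖⁻¹ : ℝ) : ℂ) * u) (by
      rw [norm_mul, Complex.norm_real, norm_inv, norm_norm, inv_mul_cancel₀ hu.ne'])
    rw [p_smul _ _ (by positivity)] at h1
    have h2 : ip j.1.2.1 (((‖u‖⁻¹ : ℝ) : ℂ) * u) = ‖u‖⁻¹ * ip j.1.2.1 u := by
      unfold ip
      rw [Complex.re_ofReal_mul, Complex.im_ofReal_mul]; ring
    rw [h2] at h1
    have h3 : ‖u‖ * (‖u‖⁻¹ * ip j.1.2.1 u + j.1.2.2 * (‖u‖⁻¹ * p j.1.1 u)) ≤ ‖u‖ * 1 :=
      mul_le_mul_of_nonneg_left h1 hu.le
    have h4 : ‖u‖ * (‖u‖⁻¹ * ip j.1.2.1 u + j.1.2.2 * (‖u‖⁻¹ * p j.1.1 u)) = ip j.1.2.1 u + j.1.2.2 * p j.1.1 u := by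
      field_simp
    rw [h4, mul_one] at h3
    exact h3

theorem W_ip (j : J) (u : ℂ) : ip j.1.2.1 u ≤ 2 * ‖u‖ := by
  have h1 := W_le j u
  have h2 : |j.1.2.2 * p j.1.1 u| ≤ 1 * ‖u‖ := by
    rw [abs_mul]; exact mul_le_mul j.2.1 (p_abs_le _ _) (abs_nonneg _) zero_le_one
  have := neg_abs_le (j.1.2.2 * p j.1.1 u)
  linarith

theorem W_neg (j : ℕ × ℂ × ℝ) (h : W j) : W (j.1, -j.2.1, -j.2.2) := by
  refine ⟨by rw [abs_neg]; exact h.1, fun a ha => ?_⟩
  have h1 := h.2 (-a) (by rw [norm_neg, ha])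
  rw [p_neg] at h1
  have h2 : ip j.2.1 (-a) = ip (-j.2.1) a := by unfold ip; simp
  rw [h2] at h1
  simp only
  linarith

/-- separation: the key fact -/
theorem exists_sep (n : ℕ) (u : ℂ) (hu : ‖u‖ = 1) (t : ℝ) (ht : p n u < t) :
    ∃ j : J, j.1.1 = n ∧ 1 < ip j.1.2.1 u + j.1.2.2 * t := by
  set δ := (t - p n u) / 2 with hδ
  have hδ0 : 0 < δ := by rw [hδ]; linarith
  let f : ℂ → ℝ := fun a => p n a - (p n u + δ) * ip u a
  have hip : Continuous fun a => ip u a := by
    unfold ip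
    have := Complex.continuous_im
    have := Complex.continuous_re
    fun_prop
  have hf : Continuous f := (p_cont n).sub (continuous_const.mul hip)
  have hfu : f u < 0 := by
    simp only [f]
    rw [ip_self, hu]; linarith
  let K : Set ℂ := {a | ‖a‖ = 1 ∧ 0 ≤ f a}
  have hK : IsCompact K := by
    have h1 : IsClosed {a : ℂ | 0 ≤ f a} := isClosed_le continuous_const hf
    have h2 := (isCompact_sphere (0 : ℂ) 1).inter_right h1
    convert h2 using 1
    ext a; simp [K]
  have hipeq : ∀ a : ℂ, ‖a‖ = 1 → ip u a = 1 → a = u := by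
    intro a ha h
    have h1 : ‖u - a‖ ^ 2 = ‖u‖ ^ 2 + ‖a‖ ^ 2 - 2 * ip u a := by
      rw [← ip_self, ← ip_self, ← ip_self]; unfold ip; simp; ring
    rw [hu, ha, h] at h1
    have h2 : ‖u - a‖ = 0 := by nlinarith [norm_nonneg (u - a)]
    exact (sub_eq_zero.1 (norm_eq_zero.1 h2)).symm
  have hiple : ∀ a : ℂ, ‖a‖ = 1 → ip u a ≤ 1 := by
    intro a ha
    have := ip_le u a
    rw [hu, ha, one_mul] at this
    exact this
  obtain ⟨m, hm0, hm⟩ : ∃ m : ℝ, 0 < m ∧ ∀ a ∈ K, m ≤ 1 - ip u a := by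
    by_cases hne : K.Nonempty
    · obtain ⟨a0, ha0, hmin⟩ := hK.exists_isMinOn hne (continuous_const.sub hip : Continuous fun a => (1 : ℝ) - ip u a).continuousOn
      refine ⟨1 - ip u a0, ?_, fun a ha => hmin ha⟩
      rcases lt_or_eq_of_le (hiple a0 ha0.1) with h | h
      · linarith
      · exfalso
        have := hipeq a0 ha0.1 h
        subst this
        exact absurd ha0.2 (not_le.2 hfu)
    · exact ⟨1, one_pos, fun a ha => absurd ⟨a, ha⟩ hne⟩
  have hpu : |p n u| ≤ 1 := by have := p_abs_le n u; rwa [hu] at this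
  set C := 2 + δ with hC
  have hC0 : 0 < C := by linarith
  have hfC : ∀ a : ℂ, ‖a‖ = 1 → f a ≤ C := by
    intro a ha
    have h1 : |p n a| ≤ 1 := by have := p_abs_le n a; rwa [ha] at this
    have h2 := hiple a ha
    have h3 : -1 ≤ ip u a := by
      have := hiple (-a) (by rw [norm_neg, ha])
      have e : ip u (-a) = -ip u a := by unfold ip; simp; ring
      linarith
    have h4 : |(p n u + δ) * ip u a| ≤ (1 + δ) * 1 := by
      rw [abs_mul]
      refine mul_le_mul ?_ (abs_le.2 ⟨h3, h2⟩) (abs_nonneg _) (by linarith)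
      refine (abs_add_le _ _).trans ?_
      rw [abs_of_pos hδ0]; linarith
    have h5 := neg_abs_le ((p n u + δ) * ip u a)
    have h6 := le_abs_self (p n a)
    simp only [f]
    linarith
  set η := min 1 (m / C) with hη
  have hη0 : 0 < η := lt_min one_pos (by positivity)
  have hη1 : η ≤ 1 := min_le_left _ _
  have hηm : η * C ≤ m := by
    have : η ≤ m / C := min_le_right _ _
    rwa [le_div_iff₀ hC0] at this
  set s := η * (p n u + δ) with hs
  have hW : W (n, ((1 - s : ℝ) : ℂ) * u, η) := by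
    refine ⟨by simp only; rw [abs_of_pos hη0]; exact hη1, fun a ha => ?_⟩
    simp only
    have h1 : ip (((1 - s : ℝ) : ℂ) * u) a = (1 - s) * ip u a := by
      unfold ip; rw [Complex.re_ofReal_mul, Complex.im_ofReal_mul]; ring
    rw [h1]
    have h2 : (1 - s) * ip u a + η * p n a = ip u a + η * f a := by
      simp only [f]; rw [hs]; ring
    rw [h2]
    by_cases hfa : 0 ≤ f a
    · have h3 := hm a ⟨ha, hfa⟩
      have h4 : η * f a ≤ η * C := mul_le_mul_of_nonneg_left (hfC a ha) hη0.le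
      linarith
    · push Not at hfa
      have := hiple a ha
      nlinarith
  refine ⟨⟨_, hW⟩, rfl, ?_⟩
  simp only
  have h1 : ip (((1 - s : ℝ) : ℂ) * u) u = 1 - s := by
    have : ip (((1 - s : ℝ) : ℂ) * u) u = (1 - s) * ip u u := by
      unfold ip; rw [Complex.re_ofReal_mul, Complex.im_ofReal_mul]; ring
    rw [this, ip_self, hu]; ring
  rw [h1, hs]
  have h2 : t = p n u + 2 * δ := by rw [hδ]; ring
  rw [h2]
  nlinarith [mul_pos hη0 hδ0]

/-! ### The space -/

/-- the space `ℝ² × ℓ^∞` with a new norm -/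
def E : Type := ℂ × (BoundedContinuousFunction ℕ ℝ)

noncomputable instance : AddCommGroup E := inferInstanceAs (AddCommGroup (ℂ × (BoundedContinuousFunction ℕ ℝ)))
noncomputable instance : Module ℝ E := inferInstanceAs (Module ℝ (ℂ × (BoundedContinuousFunction ℕ ℝ)))

/-- first coordinate -/
def fs (z : E) : ℂ := Prod.fst z
/-- second coordinate -/
def sn (z : E) : BoundedContinuousFunction ℕ ℝ := Prod.snd z
/-- pairing -/
def mk (u : ℂ) (x : BoundedContinuousFunction ℕ ℝ) : E := (u, x)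

theorem E_ext {z z' : E} (h1 : fs z = fs z') (h2 : sn z = sn z') : z = z' := Prod.ext h1 h2

/-- the functional with index `j` -/
noncomputable def ell (j : J) (z : E) : ℝ := ip j.1.2.1 (fs z) + j.1.2.2 * (sn z) j.1.1

theorem ell_le (j : J) (z : E) : ell j z ≤ 2 * ‖(fs z)‖ + ‖(sn z)‖ := by
  unfold ell
  have h1 := W_ip j (fs z)
  have h2 : |j.1.2.2 * (sn z) j.1.1| ≤ 1 * ‖(sn z)‖ := by
    rw [abs_mul]
    exact mul_le_mul j.2.1 ((sn z).norm_coe_le_norm _) (abs_nonneg _) zero_le_one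
  have := le_abs_self (j.1.2.2 * (sn z) j.1.1)
  linarith

theorem ell_bdd (z : E) : BddAbove (range fun j : J => ell j z) :=
  ⟨2 * ‖(fs z)‖ + ‖(sn z)‖, by rintro _ ⟨j, rfl⟩; exact ell_le j z⟩

theorem ell_add (j : J) (z z' : E) : ell j (z + z') = ell j z + ell j z' := by
  have h1 : fs (z + z') = (fs z) + (fs z') := rfl
  have h2 : sn (z + z') = (sn z) + (sn z') := rfl
  unfold ell ip
  rw [h1, h2, Complex.add_re, Complex.add_im, BoundedContinuousFunction.add_apply]; ring

theorem ell_smul (j : J) (c : ℝ) (z : E) : ell j (c • z) = c * ell j z := by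
  have h1 : fs (c • z) = c • (fs z) := rfl
  have h2 : sn (c • z) = c • (sn z) := rfl
  unfold ell ip
  rw [h1, h2, Complex.smul_re, Complex.smul_im, BoundedContinuousFunction.smul_apply]
  simp only [smul_eq_mul]; ring

/-- negative of an index -/
def negJ (j : J) : J := ⟨(j.1.1, -j.1.2.1, -j.1.2.2), W_neg j.1 j.2⟩

theorem ell_negJ (j : J) (z : E) : ell (negJ j) z = -ell j z := by
  unfold ell negJ ip; simp; ring

instance : Nonempty J := ⟨⟨(0, 0, 0), by
  refine ⟨by simp, fun a _ => ?_⟩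
  simp [ip]⟩⟩

/-- the norm -/
noncomputable def N (z : E) : ℝ := ⨆ j : J, ell j z

theorem ell_le_N (j : J) (z : E) : ell j z ≤ N z := le_ciSup (ell_bdd z) j

theorem N_le (z : E) (c : ℝ) (h : ∀ j : J, ell j z ≤ c) : N z ≤ c := ciSup_le h

theorem N_upper (z : E) : N z ≤ 2 * ‖(fs z)‖ + ‖(sn z)‖ := N_le z _ fun j => ell_le j z

theorem N_lower1 (z : E) : ‖(fs z)‖ ≤ N z := by
  rcases eq_or_ne (fs z) 0 with h | h
  · rw [h, norm_zero]
    let j0 : J := ⟨(0, 0, 0), by refine ⟨by simp, fun a _ => ?_⟩; simp [ip]⟩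
    have := ell_le_N j0 z
    refine le_trans (le_of_eq ?_) this
    simp [ell, ip, j0]
  · have hu : 0 < ‖(fs z)‖ := norm_pos_iff.2 h
    let ξ : ℂ := ((‖(fs z)‖⁻¹ : ℝ) : ℂ) * (fs z)
    have hξ : ‖ξ‖ = 1 := by
      simp only [ξ]
      rw [norm_mul, Complex.norm_real, norm_inv, norm_norm, inv_mul_cancel₀ hu.ne']
    let j : J := ⟨(0, ξ, 0), by
      refine ⟨by simp, fun a ha => ?_⟩
      have := ip_le ξ a
      rw [hξ, ha] at this
      simp only [zero_mul, add_zero]
      linarith⟩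
    have h1 := ell_le_N j z
    refine le_trans (le_of_eq ?_) h1
    simp only [ell, j, zero_mul, add_zero]
    have : ip ξ (fs z) = ‖(fs z)‖⁻¹ * ip (fs z) (fs z) := by
      simp only [ξ]; unfold ip; rw [Complex.re_ofReal_mul, Complex.im_ofReal_mul]; ring
    rw [this, ip_self]
    field_simp

theorem N_lower2 (z : E) : ‖(sn z)‖ ≤ N z := by
  have h0 : 0 ≤ N z := (norm_nonneg _).trans (N_lower1 z)
  rw [BoundedContinuousFunction.norm_le h0]
  intro n
  have hW : ∀ η : ℝ, |η| ≤ 1 → W (n, 0, η) := by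
    intro η hη
    refine ⟨hη, fun a ha => ?_⟩
    simp only
    have h1 : ip 0 a = 0 := by simp [ip]
    rw [h1, zero_add]
    refine (le_abs_self _).trans ?_
    rw [abs_mul]
    have := p_abs_le n a
    rw [ha] at this
    exact mul_le_one₀ hη (abs_nonneg _) this
  rw [Real.norm_eq_abs, abs_le']
  constructor
  · have := ell_le_N ⟨_, hW 1 (by simp)⟩ z
    simpa [ell, ip] using this
  · have := ell_le_N ⟨_, hW (-1) (by simp)⟩ z
    simpa [ell, ip] using this

theorem N_neg (z : E) : N (-z) = N z := by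
  have key : ∀ z : E, N (-z) ≤ N z := by
    intro z
    refine N_le _ _ fun j => ?_
    have h1 : ell j (-z) = ell (negJ j) z := by
      rw [ell_negJ, ← neg_one_smul ℝ z, ell_smul]; ring
    rw [h1]; exact ell_le_N _ z
  refine le_antisymm (key z) ?_
  have := key (-z)
  rwa [neg_neg] at this

noncomputable instance : NormedAddCommGroup E :=
  AddGroupNorm.toNormedAddCommGroup
    { toFun := N
      map_zero' := by
        refine le_antisymm (N_le _ _ fun j => ?_) ((norm_nonneg _).trans (N_lower1 0))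
        have h1 : ell j 0 = 0 := by
          have := ell_smul j 0 0
          simpa using this
        rw [h1]
      add_le' := fun z z' => N_le _ _ fun j => by
        rw [ell_add]; exact add_le_add (ell_le_N j z) (ell_le_N j z')
      neg' := N_neg
      eq_zero_of_map_eq_zero' := fun z hz => by
        have h1 := N_lower1 z
        have h2 := N_lower2 z
        have hz' : N z = 0 := hz
        rw [hz'] at h1 h2
        exact E_ext (norm_le_zero_iff.1 h1) (norm_le_zero_iff.1 h2) }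

theorem norm_def (z : E) : ‖z‖ = N z := rfl

noncomputable instance : NormedSpace ℝ E where
  norm_smul_le c z := by
    rw [norm_def, norm_def]
    refine N_le _ _ fun j => ?_
    rw [ell_smul, Real.norm_eq_abs]
    rcases le_total 0 c with h | h
    · rw [abs_of_nonneg h]
      exact mul_le_mul_of_nonneg_left (ell_le_N j z) h
    · rw [abs_of_nonpos h]
      have := mul_le_mul_of_nonneg_left (ell_le_N (negJ j) z) (neg_nonneg.2 h)
      rw [ell_negJ] at this
      linarith

/-- the vector `p(u)` -/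
noncomputable def pv (u : ℂ) : BoundedContinuousFunction ℕ ℝ :=
  BoundedContinuousFunction.ofNormedAddCommGroupDiscrete (fun n => p n u) ‖u‖ fun n => by
    rw [Real.norm_eq_abs]; exact p_abs_le n u

theorem pv_apply (u : ℂ) (n : ℕ) : pv u n = p n u := rfl

theorem N_pv (u : ℂ) : N (mk u (pv u)) ≤ ‖u‖ := N_le _ _ fun j => W_le j u

theorem eq_pv (u : ℂ) (x : BoundedContinuousFunction ℕ ℝ) (h : N (mk u x) ≤ ‖u‖) : x = pv u := by
  rcases eq_or_ne u 0 with hu | hu
  · subst hu
    rw [norm_zero] at h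
    have h1 := (N_lower2 (mk 0 x)).trans h
    have hx : x = 0 := norm_le_zero_iff.1 h1
    rw [hx]
    ext n
    rw [pv_apply]
    have := p_abs_le n 0
    rw [norm_zero] at this
    exact (abs_eq_zero.1 (le_antisymm this (abs_nonneg _))).symm
  · have hu0 : 0 < ‖u‖ := norm_pos_iff.2 hu
    have key : ∀ (u : ℂ) (hu0 : 0 < ‖u‖) (x : BoundedContinuousFunction ℕ ℝ), N (mk u x) ≤ ‖u‖ → ∀ n, x n ≤ p n u := by
      intro u hu0 x h n
      by_contra hlt
      push Not at hlt
      let v : ℂ := ((‖u‖⁻¹ : ℝ) : ℂ) * u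
      have hv : ‖v‖ = 1 := by
        simp only [v]
        rw [norm_mul, Complex.norm_real, norm_inv, norm_norm, inv_mul_cancel₀ hu0.ne']
      have hpv : p n v = ‖u‖⁻¹ * p n u := p_smul n _ (by positivity) u
      obtain ⟨j, hj, hsep⟩ := exists_sep n v hv (‖u‖⁻¹ * x n) (by rw [hpv]; gcongr)
      have h1 : ip j.1.2.1 v = ‖u‖⁻¹ * ip j.1.2.1 u := by
        simp only [v]; unfold ip; rw [Complex.re_ofReal_mul, Complex.im_ofReal_mul]; ring
      rw [h1] at hsep
      have h2 := (ell_le_N j (mk u x)).trans h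
      have h2' : ip j.1.2.1 u + j.1.2.2 * x j.1.1 ≤ ‖u‖ := h2
      rw [hj] at h2'
      have h3 : ‖u‖⁻¹ * (ip j.1.2.1 u + j.1.2.2 * x n) ≤ ‖u‖⁻¹ * ‖u‖ := mul_le_mul_of_nonneg_left h2' (by positivity)
      rw [inv_mul_cancel₀ hu0.ne'] at h3
      linarith
    ext n
    rw [pv_apply]
    refine le_antisymm (key u hu0 x h n) ?_
    have h1 : N (mk (-u) (-x)) ≤ ‖-u‖ := by
      rw [norm_neg]
      have := N_neg (mk u x)
      exact this.le.trans h
    have h2 := key (-u) (by rw [norm_neg]; exact hu0) (-x) h1 n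
    rw [p_neg] at h2
    have h3 : (-x) n = -(x n) := rfl
    rw [h3] at h2
    linarith

/-- the subspace `G = {0} × ℓ^∞` of codimension two -/
def GG : Set E := {z | (fs z) = 0}

/-- its metric projection -/
noncomputable def proj (z : E) : E := mk 0 (sn z - pv (fs z))

theorem isMetricProjection : IsMetricProjection GG proj := by
  intro z
  refine ⟨rfl, fun g hg hne => ?_⟩
  have h1 : z - proj z = mk (fs z) (pv (fs z)) := by
    refine E_ext ?_ ?_
    · show (fs z) - 0 = (fs z)
      rw [sub_zero]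
    · show (sn z) - ((sn z) - pv (fs z)) = pv (fs z)
      abel
  have h2 : z - g = mk (fs z) (sn z - sn g) := by
    refine E_ext ?_ rfl
    show (fs z) - (fs g) = (fs z)
    have : (fs g) = 0 := hg
    rw [this, sub_zero]
  rw [h1, h2, norm_def, norm_def]
  refine lt_of_le_of_lt (N_pv (fs z)) ?_
  by_contra hcon
  push Not at hcon
  have h3 := eq_pv (fs z) ((sn z) - (sn g)) hcon
  apply hne
  refine E_ext hg ?_
  show (sn g) = (sn z) - pv (fs z)
  rw [← h3]; abel

theorem not_continuous : ¬ Continuous proj := by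
  intro hc
  -- points `u_n` on the unit circle with imaginary part `4^{-n}`
  let s : ℕ → ℝ := fun n => (4 ^ n : ℝ)⁻¹
  have hs0 : ∀ n, 0 < s n := fun n => by positivity
  have hs1 : ∀ n, s n ≤ 1 := fun n => inv_le_one_of_one_le₀ (one_le_pow₀ (by norm_num))
  have hslim : Tendsto s atTop (𝓝 0) := by
    have := tendsto_pow_atTop_nhds_zero_of_lt_one (r := (4 : ℝ)⁻¹) (by norm_num) (by norm_num)
    refine this.congr fun n => ?_
    simp only [s]; rw [inv_pow]
  let u : ℕ → ℂ := fun n => ⟨Real.sqrt (1 - s n ^ 2), s n⟩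
  have hun : ∀ n, ‖u n‖ = 1 := by
    intro n
    rw [Complex.norm_eq_sqrt_sq_add_sq]
    simp only [u]
    rw [Real.sq_sqrt (by nlinarith [hs0 n, hs1 n])]
    simp
  have hulim : Tendsto u atTop (𝓝 1) := by
    have h1 : Tendsto (fun n => ((Real.sqrt (1 - s n ^ 2) : ℝ) : ℂ) + ((s n : ℝ) : ℂ) * Complex.I) atTop
        (𝓝 (((Real.sqrt (1 - 0 ^ 2) : ℝ) : ℂ) + ((0 : ℝ) : ℂ) * Complex.I)) := by
      have hc1 : Continuous fun s : ℝ => ((Real.sqrt (1 - s ^ 2) : ℝ) : ℂ) + ((s : ℝ) : ℂ) * Complex.I := by fun_prop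
      exact (hc1.tendsto 0).comp hslim
    have h2 : (((Real.sqrt (1 - 0 ^ 2) : ℝ) : ℂ) + ((0 : ℝ) : ℂ) * Complex.I) = 1 := by simp
    rw [h2] at h1
    refine h1.congr fun n => ?_
    apply Complex.ext <;> simp [u]
  have hz : Tendsto (fun n => (mk (u n) (0))) atTop (𝓝 (mk (1) (0))) := by
    rw [tendsto_iff_norm_sub_tendsto_zero]
    have h3 : Tendsto (fun n => 2 * ‖u n - 1‖) atTop (𝓝 0) := by
      have := (tendsto_iff_norm_sub_tendsto_zero.1 hulim).const_mul 2
      simpa using this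
    refine squeeze_zero (fun n => norm_nonneg _) (fun n => ?_) h3
    have h4 : (mk (u n) (0)) - (mk (1) (0)) = (mk (u n - 1) (0)) := by
      refine E_ext rfl ?_
      show (0 : BoundedContinuousFunction ℕ ℝ) - 0 = 0
      rw [sub_zero]
    rw [h4, norm_def]
    have := N_upper (mk (u n - 1) (0))
    have e1 : fs (mk (u n - 1) 0) = u n - 1 := rfl
    have e2 : sn (mk (u n - 1) 0) = 0 := rfl
    rw [e1, e2, norm_zero, add_zero] at this
    exact this
  have hlim := (hc.tendsto (mk (1) (0))).comp hz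
  have h5 := tendsto_iff_norm_sub_tendsto_zero.1 hlim
  have h6 : ∀ n, 1 ≤ ‖(proj ∘ fun n => (mk (u n) (0))) n - proj (mk (1) (0))‖ := by
    intro n
    rw [norm_def]
    refine le_trans ?_ (N_lower2 _)
    have h7 : sn ((proj ∘ fun n => (mk (u n) (0))) n - proj (mk (1) (0))) = pv 1 - pv (u n) := by
      show ((0 : BoundedContinuousFunction ℕ ℝ) - pv (u n)) - (0 - pv 1) = _
      abel
    rw [h7]
    refine le_trans ?_ (BoundedContinuousFunction.norm_coe_le_norm _ n)
    have h8 : (pv 1 - pv (u n)) n = p n 1 - p n (u n) := rfl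
    have h9 : p n 1 = 0 := by
      unfold p; simp
    have h10 : p n (u n) = 1 := by
      unfold p
      rw [hun]
      have : (4 : ℝ) ^ n * (u n).im = 1 := by
        simp only [u, s]; field_simp
      rw [this]; norm_num
    rw [h8, h9, h10]; norm_num
  have := ge_of_tendsto' h5 h6
  linarith

/-- coordinate functional as a continuous linear map -/
noncomputable def fstL : E →L[ℝ] ℂ :=
  LinearMap.mkContinuous { toFun := fun z => (fs z), map_add' := fun _ _ => rfl, map_smul' := fun _ _ => rfl } 1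
    fun z => by rw [one_mul]; exact N_lower1 z

/-- the linear projection onto `G` -/
noncomputable def sndL : E →L[ℝ] E :=
  LinearMap.mkContinuous
    { toFun := fun z => (mk (0) ((sn z)))
      map_add' := fun z z' => by
        refine E_ext ?_ rfl
        show (0 : ℂ) = 0 + 0
        rw [add_zero]
      map_smul' := fun c z => by
        refine E_ext ?_ rfl
        show (0 : ℂ) = c • 0
        rw [smul_zero] } 1
    fun z => by
      rw [one_mul]
      have h1 := N_upper (mk (0) ((sn z)))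
      have e1 : fs (mk 0 (sn z)) = 0 := rfl
      have e2 : sn (mk 0 (sn z)) = sn z := rfl
      rw [e1, e2, norm_zero, mul_zero, zero_add] at h1
      exact h1.trans (N_lower2 z)

/-- unit vectors of `ℓ^∞` -/
noncomputable def ev (n : ℕ) : BoundedContinuousFunction ℕ ℝ :=
  BoundedContinuousFunction.ofNormedAddCommGroupDiscrete (fun m => if m = n then 1 else 0) 1 fun m => by
    split_ifs <;> simp

theorem ev_apply (n m : ℕ) : ev n m = if m = n then 1 else 0 := rfl

theorem ev_summable (φ : E →L[ℝ] ℝ) : Summable fun n => |φ (mk (0) (ev n))| := by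
  refine summable_of_sum_le (c := ‖φ‖) (fun n => abs_nonneg _) fun F => ?_
  -- signs
  let x : BoundedContinuousFunction ℕ ℝ := ∑ n ∈ F, (SignType.sign (φ (mk (0) (ev n))) : ℝ) • ev n
  have hx : ‖x‖ ≤ 1 := by
    rw [BoundedContinuousFunction.norm_le zero_le_one]
    intro m
    have h1 : x m = ∑ n ∈ F, (SignType.sign (φ (mk (0) (ev n))) : ℝ) * (if m = n then 1 else 0) := by
      simp only [x]
      rw [BoundedContinuousFunction.coe_sum, Finset.sum_apply]
      rfl
    rw [h1]
    simp only [mul_ite, mul_one, mul_zero, Finset.sum_ite_eq]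
    split_ifs
    · rcases lt_trichotomy (φ (mk (0) (ev m))) 0 with h | h | h
      · rw [sign_neg h]; simp
      · rw [h]; simp
      · rw [sign_pos h]; simp
    · simp
  have h2 : φ (mk (0) (x)) = ∑ n ∈ F, |φ (mk (0) (ev n))| := by
    let L : BoundedContinuousFunction ℕ ℝ →ₗ[ℝ] E :=
      { toFun := fun y => (mk (0) (y))
        map_add' := fun z z' => by
          refine E_ext ?_ rfl
          show (0 : ℂ) = 0 + 0
          rw [add_zero]
        map_smul' := fun c z => by
          refine E_ext ?_ rfl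
          show (0 : ℂ) = c • 0
          rw [smul_zero] }
    have h3 : (mk (0) (x)) = L x := rfl
    rw [h3]
    simp only [x]
    rw [map_sum, map_sum]
    refine Finset.sum_congr rfl fun n _ => ?_
    rw [map_smul, map_smul, smul_eq_mul]
    show (SignType.sign (φ (mk (0) (ev n))) : ℝ) * φ (mk (0) (ev n)) = _
    exact sign_mul_self _
  rw [← h2]
  refine (le_abs_self _).trans ?_
  have h3 := φ.le_opNorm (mk (0) (x))
  rw [Real.norm_eq_abs] at h3
  refine h3.trans ?_
  have h4 : ‖(mk (0) (x))‖ ≤ 1 := by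
    have := N_upper (mk (0) (x))
    have e1 : fs (mk 0 x) = 0 := rfl
    have e2 : sn (mk 0 x) = x := rfl
    rw [e1, e2, norm_zero, mul_zero, zero_add] at this
    exact this.trans hx
  calc ‖φ‖ * ‖(mk (0) (x))‖ ≤ ‖φ‖ * 1 := by gcongr
    _ = ‖φ‖ := mul_one _

theorem phi_pv (φ : E →L[ℝ] ℝ) (u : ℂ) : φ (mk (0) (pv u)) = ∑' n, φ (mk (0) (ev n)) * p n u := by
  by_cases h : ∃ n, p n u ≠ 0
  · obtain ⟨n, hn⟩ := h
    rw [tsum_eq_single n]
    · have h1 : (mk (0) (pv u)) = (p n u) • (mk (0) (ev n)) := by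
        refine E_ext ?_ ?_
        · show (0 : ℂ) = (p n u) • 0
          rw [smul_zero]
        · show pv u = (p n u) • ev n
          ext m
          show p m u = p n u * (if m = n then 1 else 0)
          split_ifs with hm
          · rw [hm, mul_one]
          · rw [mul_zero]
            by_contra hne
            exact hm (p_disj m n u hne hn)
      rw [h1, map_smul, smul_eq_mul, mul_comm]
    · intro m hm
      have : p m u = 0 := by
        by_contra hne
        exact hm (p_disj m n u hne hn)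
      rw [this, mul_zero]
  · push Not at h
    have h1 : (mk (0) (pv u)) = 0 := by
      refine E_ext rfl ?_
      ext m
      exact h m
    rw [h1, map_zero]
    simp [h]

theorem phi_pv_cont (φ : E →L[ℝ] ℝ) : Continuous fun u : ℂ => φ (mk (0) (pv u)) := by
  simp_rw [phi_pv]
  rw [continuous_iff_continuousAt]
  intro u0
  have h1 : ContinuousOn (fun u => ∑' n, φ (mk (0) (ev n)) * p n u) (Metric.ball u0 1) := by
    refine continuousOn_tsum (u := fun n => |φ (mk (0) (ev n))| * (‖u0‖ + 1)) ?_ ?_ ?_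
    · intro n
      exact (continuous_const.mul (p_cont n)).continuousOn
    · exact (ev_summable φ).mul_right _
    · intro n u hu
      rw [norm_mul, Real.norm_eq_abs, Real.norm_eq_abs]
      have h2 : ‖u‖ ≤ ‖u0‖ + 1 := by
        rw [mem_ball_iff_norm] at hu
        have := norm_sub_norm_le u u0
        linarith
      have := p_abs_le n u
      gcongr
      linarith
  exact h1.continuousAt (Metric.ball_mem_nhds u0 one_pos)

theorem weaklyContinuous : WeaklyContinuous proj := by
  unfold WeaklyContinuous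
  refine WeakBilin.continuous_of_continuous_eval _ fun φ => ?_
  -- evaluation of a functional
  have hψ : ∀ ψ : E →L[ℝ] ℝ, Continuous fun x : WeakSpace ℝ E => ψ ((toWeakSpace ℝ E).symm x) := fun ψ =>
    WeakBilin.eval_continuous _ ψ
  have h1 : ∀ x : WeakSpace ℝ E, φ (proj ((toWeakSpace ℝ E).symm x)) =
      (φ.comp sndL) ((toWeakSpace ℝ E).symm x) - φ ((0, pv (fstL ((toWeakSpace ℝ E).symm x))) : E) := by
    intro x
    set z := (toWeakSpace ℝ E).symm x
    show φ (proj z) = φ (sndL z) - φ (mk (0) (pv (fs z)))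
    rw [← map_sub]
    congr 1
    refine E_ext ?_ rfl
    show (0 : ℂ) = 0 - 0
    rw [sub_zero]
  have hfst : Continuous fun x : WeakSpace ℝ E => fstL ((toWeakSpace ℝ E).symm x) := by
    have hre : Continuous fun x : WeakSpace ℝ E => (Complex.reCLM.comp fstL) ((toWeakSpace ℝ E).symm x) := hψ _
    have him : Continuous fun x : WeakSpace ℝ E => (Complex.imCLM.comp fstL) ((toWeakSpace ℝ E).symm x) := hψ _
    have : (fun x : WeakSpace ℝ E => fstL ((toWeakSpace ℝ E).symm x)) = fun x =>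
        (((Complex.reCLM.comp fstL) ((toWeakSpace ℝ E).symm x) : ℝ) : ℂ) +
        (((Complex.imCLM.comp fstL) ((toWeakSpace ℝ E).symm x) : ℝ) : ℂ) * Complex.I := by
      funext x
      exact (Complex.re_add_im _).symm
    rw [this]
    exact (Complex.continuous_ofReal.comp hre).add ((Complex.continuous_ofReal.comp him).mul continuous_const)
  have h2 : Continuous fun x : WeakSpace ℝ E => φ (proj ((toWeakSpace ℝ E).symm x)) := by
    simp_rw [h1]
    exact (hψ _).sub ((phi_pv_cont φ).comp hfst)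
  exact h2

/-- **Weak continuity of a metric projection does not imply norm continuity.** -/
theorem result : ∃ (E : Type) (_ : NormedAddCommGroup E) (_ : NormedSpace ℝ E) (G : Set E) (π : E → E),
    IsMetricProjection G π ∧ WeaklyContinuous π ∧ ¬ Continuous π :=
  ⟨E, inferInstance, inferInstance, GG, proj, isMetricProjection, weaklyContinuous, not_continuous⟩

end Pool.Agent.Results.MP_97ba4e_an.WeakNotNorm
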